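import Pool.Agent.Lib.D2_h7.R15b
import Pool.Agent.Lib.D2_h2.Drop
import Pool.Agent.Lib.LU3.ZStep

/-!
# DefectTwo: the common last lemma of the two cases of (*), and the step of the case in which
`v(L₀)` is not finitely generated, from R15a and `RowPOL`
-/

set_option autoImplicit false

open Polynomial

namespace Pool.Agent.D2h7

open Pool.Agent.LU1 Pool.Agent.LU3
open Pool.Agent.H15JM (RVal)

universe u

variable {k Ω : Type u} [Field k] [Field Ω] [Algebra k Ω] {v : RVal Ω} {r : ℕ}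

/-- From the coefficients of `A(ψ + χ(a) Z) / χ(m a)` to `F.Drop`. -/
theorem rowDrop : RowDrop k Ω v r := by
  intro Ω₀ z hC B F hF S hS ψ hψ a ha ha0 hav A m l hl hmem hrep
  have hχa : ((S.χ a : Ω₀) : Ω) ≠ 0 := fun h0 => S.χ_ne a ha (Subtype.ext h0)
  have hzψ : z - (ψ : Ω) ≠ 0 := by
    intro h0
    apply hC.z_not
    rw [sub_eq_zero.1 h0]
    exact ψ.2
  have hvχ : v ((S.χ a : Ω₀) : Ω) = a := S.χ_val a ha
  have hpos : 0 < v ((z - (ψ : Ω)) / ((S.χ a : Ω₀) : Ω)) := by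
    rw [v.map_div hzψ hχa, hvχ]; linarith
  obtain ⟨F', hFF', hF'⟩ := exists_z0 hC hF hS.ble (hS.brat hF.rat) hψ ha ha0.le (c := 0)
    (z' := (z - (ψ : Ω)) / ((S.χ a : Ω₀) : Ω)) (by rw [_root_.map_zero, sub_zero]) hpos
  refine drop_of hFF' hF' ha ?_ hmem ?_ hl
  · rw [mul_div_cancel₀ _ hχa]; ring
  · rw [neg_mul]; exact hrep

/-- **The step in case (*), `v(L₀)` not finitely generated**, from R15a and the polygon block. -/
theorem stepNFG' {p : ℕ} (hp : p.Prime) (hchar : CharP k p) (hk : IsAlgClosed k)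
    (h15a : ∀ (Ω₀ : IntermediateField k Ω) (z : Ω), IsAlgClosed Ω₀ → Core k v r Ω₀ z →
      ∀ (B : BF k (resv v Ω₀)) (L₀ : IntermediateField k Ω₀), FracIs B.R L₀ → BRat B →
      ∀ (A : Ω₀[X]) (m : ℕ), 0 < m → HA B A m → CondNFG v Ω₀ z L₀ A →
        Nonempty (Out15a z B L₀ A m p))
    (hPOL : ∀ Ω₀ : IntermediateField k Ω, RowPOL k Ω₀ (resv v Ω₀) r) :
    StepIf k Ω v r (CondNFG v) :=
  stepNFG hp hchar hk h15a hPOL rowDrop

end Pool.Agent.D2h7
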