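import Pool.Agent.Lib.LU3.Defs

/-!
# DefectTwo: contents in rational frames with two parameters

Elementary facts about `RF2` frames over a real valuation `v` of `Ω` and about the relation of an
`RF2` frame to the one-parameter frame below it.
-/

set_option autoImplicit false

open Polynomial

namespace Pool.Agent.D2h7

open Pool.Agent.LU1 Pool.Agent.LU3
open Pool.Agent.H15JM (RVal)

universe u

variable {k Ω : Type u} [Field k] [Field Ω] [Algebra k Ω] {v : RVal Ω} {r : ℕ}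

/-! ### the monomials -/

section Chi

variable (F : RF2 k v)

theorem χ_zero : F.χ 0 = 1 := by
  have h := F.χ_add 0 F.Γ.zero_mem 0 F.Γ.zero_mem
  rw [add_zero] at h
  exact (mul_right_cancel₀ (F.χ_ne 0 F.Γ.zero_mem) (by rw [one_mul]; exact h)).symm

theorem χ_neg {γ : ℝ} (h : γ ∈ F.Γ) : F.χ (-γ) = (F.χ γ)⁻¹ := by
  have h1 := F.χ_add γ h (-γ) (F.Γ.neg_mem h)
  rw [add_neg_cancel, χ_zero] at h1
  exact (inv_eq_of_mul_eq_one_right h1.symm).symm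

theorem nsmul_mem {γ : ℝ} (h : γ ∈ F.Γ) (n : ℕ) : (n : ℝ) * γ ∈ F.Γ := by
  rw [← nsmul_eq_mul]; exact F.Γ.nsmul_mem h n

theorem χ_nsmul {γ : ℝ} (h : γ ∈ F.Γ) (n : ℕ) : F.χ (n * γ) = F.χ γ ^ n := by
  induction n with
  | zero => simp [χ_zero]
  | succ n ih =>
    have h1 : ((n + 1 : ℕ) : ℝ) * γ = n * γ + γ := by push_cast; ring
    rw [h1, F.χ_add _ (nsmul_mem F h n) _ h, ih, pow_succ]

theorem P_le : F.P ≤ F.R := le_locv _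

theorem χ_mem {γ : ℝ} (h : γ ∈ F.Γ) (h0 : 0 ≤ γ) : F.χ γ ∈ F.R :=
  P_le F (Algebra.subset_adjoin (Or.inl ⟨γ, ⟨h, h0⟩, rfl⟩))

theorem y_mem : F.y ∈ F.R := P_le F (Algebra.subset_adjoin (Or.inr (Or.inl rfl)))

theorem z_mem : F.z ∈ F.R := P_le F (Algebra.subset_adjoin (Or.inr (Or.inr rfl)))

theorem natCast_mem_R (n : ℕ) : (n : Ω) ∈ F.R := natCast_mem F.R n

theorem exists_pos : ∃ δ ∈ F.Γ, 0 < δ := by
  obtain ⟨m, hm, h1⟩ := F.full F.y F.y_ne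
  exact ⟨_, h1, mul_pos (by exact_mod_cast hm) F.y_pos⟩

theorem χ_dvd {γ δ : ℝ} (h : γ ∈ F.Γ) (h' : δ ∈ F.Γ) (hle : δ ≤ γ) :
    ∃ a ∈ F.R, F.χ γ = F.χ δ * a :=
  ⟨F.χ (γ - δ), χ_mem F (F.Γ.sub_mem h h') (sub_nonneg.2 hle), by
    rw [← F.χ_add δ h' _ (F.Γ.sub_mem h h')]; congr 1; ring⟩

theorem ideal_add {γ δ : ℝ} (h : γ ∈ F.Γ) (h' : δ ∈ F.Γ) {a b : Ω} (ha : a ∈ F.R)
    (hb : b ∈ F.R) : ∃ c ∈ F.R, F.χ γ * a + F.χ δ * b = F.χ (min γ δ) * c := by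
  rcases le_total γ δ with hle | hle
  · obtain ⟨e, he, h1⟩ := χ_dvd F h' h hle
    refine ⟨a + e * b, F.R.add_mem ha (F.R.mul_mem he hb), ?_⟩
    rw [min_eq_left hle, h1]; ring
  · obtain ⟨e, he, h1⟩ := χ_dvd F h h' hle
    refine ⟨e * a + b, F.R.add_mem (F.R.mul_mem he ha) hb, ?_⟩
    rw [min_eq_right hle, h1]; ring

end Chi

/-! ### contents -/

/-- `f ∈ χ(κ) R`. -/
def Lo (F : RF2 k v) (κ : ℝ) (f : Ω) : Prop := κ ∈ F.Γ ∧ ∃ a ∈ F.R, f = F.χ κ * a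

/-- `f ∈ χ(γ) R` for some `γ > κ`. -/
def Hi (F : RF2 k v) (κ : ℝ) (f : Ω) : Prop := ∃ γ ∈ F.Γ, κ < γ ∧ ∃ a ∈ F.R, f = F.χ γ * a

section Cont

variable {F : RF2 k v}

theorem Hi.zero (F : RF2 k v) (κ : ℝ) : Hi F κ 0 := by
  obtain ⟨δ, hδ, h0⟩ := exists_pos F
  obtain ⟨n, hn⟩ := Archimedean.arch κ h0
  rw [nsmul_eq_mul] at hn
  refine ⟨((n + 1 : ℕ) : ℝ) * δ, nsmul_mem F hδ (n + 1), ?_, 0, F.R.zero_mem, by rw [mul_zero]⟩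
  push_cast
  linarith

theorem Hi.add {κ : ℝ} {z t : Ω} (hz : Hi F κ z) (ht : Hi F κ t) : Hi F κ (z + t) := by
  obtain ⟨γ, hγ, h1, a, ha, rfl⟩ := hz
  obtain ⟨δ, hδ, h2, b, hb, rfl⟩ := ht
  obtain ⟨c, hc, h3⟩ := ideal_add F hγ hδ ha hb
  refine ⟨min γ δ, ?_, lt_min h1 h2, c, hc, h3⟩
  rcases min_choice γ δ with h | h <;> rw [h] <;> assumption

theorem Hi.mul_mem {κ : ℝ} {z c : Ω} (hz : Hi F κ z) (hc : c ∈ F.R) : Hi F κ (z * c) := by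
  obtain ⟨γ, hγ, h1, a, ha, rfl⟩ := hz
  exact ⟨γ, hγ, h1, a * c, F.R.mul_mem ha hc, by ring⟩

theorem Hi.sum {ι : Type*} {s : Finset ι} {κ : ℝ} {f : ι → Ω} (h : ∀ i ∈ s, Hi F κ (f i)) :
    Hi F κ (∑ i ∈ s, f i) :=
  Finset.sum_induction _ (Hi F κ) (fun _ _ => Hi.add) (Hi.zero F κ) h

theorem Hi.of_lt {κ κ' : ℝ} (h : κ < κ') {f : Ω} (hf : Lo F κ' f) : Hi F κ f := by
  obtain ⟨h1, a, ha, rfl⟩ := hf
  exact ⟨κ', h1, h, a, ha, rfl⟩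

theorem Lo.mul {κ κ' : ℝ} {f g : Ω} (hf : Lo F κ f) (hg : Lo F κ' g) :
    Lo F (κ + κ') (f * g) := by
  obtain ⟨h1, a, ha, rfl⟩ := hf
  obtain ⟨h2, b, hb, rfl⟩ := hg
  exact ⟨F.Γ.add_mem h1 h2, a * b, F.R.mul_mem ha hb, by rw [F.χ_add κ h1 κ' h2]; ring⟩

theorem Lo.mul_mem {κ : ℝ} {f c : Ω} (hf : Lo F κ f) (hc : c ∈ F.R) : Lo F κ (f * c) := by
  obtain ⟨h1, a, ha, rfl⟩ := hf
  exact ⟨h1, a * c, F.R.mul_mem ha hc, by ring⟩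

theorem Lo.pow {κ : ℝ} {f : Ω} (hf : Lo F κ f) (n : ℕ) : Lo F (n * κ) (f ^ n) := by
  obtain ⟨h1, a, ha, rfl⟩ := hf
  exact ⟨nsmul_mem F h1 n, a ^ n, F.R.pow_mem ha n, by rw [χ_nsmul F h1, mul_pow]⟩

theorem Lo.zero {κ : ℝ} (h : κ ∈ F.Γ) : Lo F κ 0 := ⟨h, 0, F.R.zero_mem, by rw [mul_zero]⟩

theorem Lo.add {κ : ℝ} {f g : Ω} (hf : Lo F κ f) (hg : Lo F κ g) : Lo F κ (f + g) := by
  obtain ⟨h1, a, ha, rfl⟩ := hf
  obtain ⟨-, b, hb, rfl⟩ := hg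
  exact ⟨h1, a + b, F.R.add_mem ha hb, by ring⟩

theorem Lo.sum {ι : Type*} {s : Finset ι} {κ : ℝ} (h : κ ∈ F.Γ) {f : ι → Ω}
    (hf : ∀ i ∈ s, Lo F κ (f i)) : Lo F κ (∑ i ∈ s, f i) :=
  Finset.sum_induction _ (Lo F κ) (fun _ _ => Lo.add) (Lo.zero h) hf

theorem Lo.of_le {κ κ' : ℝ} (h : κ ∈ F.Γ) (hle : κ ≤ κ') {f : Ω} (hf : Lo F κ' f) :
    Lo F κ f := by
  obtain ⟨h1, a, ha, rfl⟩ := hf
  obtain ⟨e, he, h2⟩ := χ_dvd F h1 h hle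
  exact ⟨h, e * a, F.R.mul_mem he ha, by rw [h2]; ring⟩

end Cont

/-! ### units -/

section Unit

variable {F : RF2 k v}

theorem R_inv {f : Ω} (hf : f ∈ F.R) (h0 : f ≠ 0) (h1 : v f = 0) : f⁻¹ ∈ F.R :=
  locv_inv hf h0 h1

theorem Un.one : F.Un 1 := ⟨F.R.one_mem, one_ne_zero, v.map_one⟩

theorem Un.mul {f g : Ω} (h : F.Un f) (h' : F.Un g) : F.Un (f * g) :=
  ⟨F.R.mul_mem h.1 h'.1, mul_ne_zero h.2.1 h'.2.1, by
    rw [v.map_mul h.2.1 h'.2.1, h.2.2, h'.2.2, add_zero]⟩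

theorem Un.inv {f : Ω} (h : F.Un f) : F.Un f⁻¹ :=
  ⟨R_inv h.1 h.2.1 h.2.2, inv_ne_zero h.2.1, by rw [v.map_inv h.2.1, h.2.2, neg_zero]⟩

theorem Un.pow {f : Ω} (h : F.Un f) (n : ℕ) : F.Un (f ^ n) := by
  induction n with
  | zero => simpa using (Un.one (F := F))
  | succ n ih => rw [pow_succ]; exact Un.mul ih h

theorem Un.add_vpos {f g : Ω} (h : F.Un f) (hg : g ∈ F.R) (hv : VPos v g) : F.Un (f + g) := by
  have := val_add_vpos h.2.1 h.2.2 hv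
  exact ⟨F.R.add_mem h.1 hg, this.1, this.2⟩

theorem P_nonneg (h : Ctx2 k v r) : ∀ f ∈ F.P, v.Ge 0 f := by
  intro f hf
  induction hf using Algebra.adjoin_induction with
  | mem x hx =>
    rcases hx with ⟨γ, ⟨h1, h2⟩, rfl⟩ | rfl | rfl
    · intro _; rw [F.χ_val γ h1]; exact h2
    · intro _; exact F.y_pos.le
    · intro _; exact F.z_pos.le
  | algebraMap c =>
    intro h0
    have : c ≠ 0 := by rintro rfl; simp at h0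
    rw [h.triv c this]
  | add x y _ _ hx hy => exact hx.add hy
  | mul x y _ _ hx hy => simpa using hx.mul hy

theorem R_nonneg (h : Ctx2 k v r) : ∀ f ∈ F.R, v.Ge 0 f := locv_nonneg (P_nonneg h)

theorem Hi.vpos (h : Ctx2 k v r) {f : Ω} (hf : Hi F 0 f) : f ∈ F.R ∧ VPos v f := by
  obtain ⟨γ, hγ, h0, a, ha, rfl⟩ := hf
  refine ⟨F.R.mul_mem (χ_mem F hγ h0.le) ha, fun hne => ?_⟩
  have ha0 : a ≠ 0 := right_ne_zero_of_mul hne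
  rw [v.map_mul (F.χ_ne γ hγ) ha0, F.χ_val γ hγ]
  linarith [R_nonneg h a ha ha0]

theorem mono_iff {f : Ω} : F.Mono f ↔ ∃ γ ∈ F.Γ, ∃ u, F.Un u ∧ f = F.χ γ * u := by
  constructor
  · rintro ⟨h0, h1, h2⟩
    exact ⟨v f, h1, _, h2, by rw [mul_div_cancel₀ _ (F.χ_ne _ h1)]⟩
  · rintro ⟨γ, hγ, u, hu, rfl⟩
    have hv : v (F.χ γ * u) = γ := by
      rw [v.map_mul (F.χ_ne γ hγ) hu.2.1, F.χ_val γ hγ, hu.2.2, add_zero]
    refine ⟨mul_ne_zero (F.χ_ne γ hγ) hu.2.1, by rw [hv]; exact hγ, ?_⟩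
    rw [hv, mul_div_cancel_left₀ _ (F.χ_ne γ hγ)]
    exact hu

theorem Mono.exists_un {f : Ω} (h : F.Mono f) : ∃ u, F.Un u ∧ f = F.χ (v f) * u :=
  ⟨_, h.2.2, by rw [mul_div_cancel₀ _ (F.χ_ne _ h.2.1)]⟩

theorem Mono.lo {f : Ω} (h : F.Mono f) : Lo F (v f) f := by
  obtain ⟨u, hu, h1⟩ := Mono.exists_un h
  exact ⟨h.2.1, u, hu.1, h1⟩

/-- A monomial plus something of higher content is a monomial of the same value. -/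
theorem Mono.add_hi (h : Ctx2 k v r) {f g : Ω} (hf : F.Mono f) (hg : Hi F (v f) g) :
    F.Mono (f + g) ∧ v (f + g) = v f := by
  obtain ⟨u, hu, h1⟩ := Mono.exists_un hf
  obtain ⟨γ, hγ, hlt, a, ha, h2⟩ := hg
  have h3 : γ - v f ∈ F.Γ := F.Γ.sub_mem hγ hf.2.1
  have h4 : g = F.χ (v f) * (F.χ (γ - v f) * a) := by
    rw [← mul_assoc, ← F.χ_add _ hf.2.1 _ h3, add_sub_cancel, h2]
  have h5 : Hi F 0 (F.χ (γ - v f) * a) := ⟨γ - v f, h3, by linarith, a, ha, rfl⟩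
  have h6 := Hi.vpos h h5
  have h7 : F.Un (u + F.χ (γ - v f) * a) := Un.add_vpos hu h6.1 h6.2
  have h8 : f + g = F.χ (v f) * (u + F.χ (γ - v f) * a) := by
    rw [mul_add, ← h1, ← h4]
  have h9 : v (f + g) = v f := by
    rw [h8, v.map_mul (F.χ_ne _ hf.2.1) h7.2.1, h7.2.2, F.χ_val _ hf.2.1, add_zero]
  exact ⟨mono_iff.2 ⟨v f, hf.2.1, _, h7, h8⟩, h9⟩

end Unit

/-! ### `YRep` -/

section YRep

variable {F : RF2 k v}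

theorem YRep.mul (h : Ctx2 k v r) {f g : Ω} {κ κ' : ℝ} {D D' : ℕ} (hf : F.YRep f κ D)
    (hg : F.YRep g κ' D') : F.YRep (f * g) (κ + κ') (D + D') := by
  obtain ⟨h1, u, hu, b, hb, δ, hδ, hδ0, a, ha, rfl⟩ := hf
  obtain ⟨h2, w, hw, c, hc, ε, hε, hε0, e, he, rfl⟩ := hg
  obtain ⟨n, hn, hmin⟩ := ideal_add F hδ hε
    (F.R.mul_mem ha (F.R.add_mem (F.R.add_mem (F.R.mul_mem hw.1 (F.R.pow_mem (y_mem F) D'))
      (F.R.mul_mem (z_mem F) hc)) (F.R.mul_mem (χ_mem F hε hε0.le) he)))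
    (F.R.mul_mem he (F.R.add_mem (F.R.mul_mem hu.1 (F.R.pow_mem (y_mem F) D))
      (F.R.mul_mem (z_mem F) hb)))
  refine ⟨F.Γ.add_mem h1 h2, u * w, Un.mul hu hw,
    b * (w * F.y ^ D' + F.z * c) + u * F.y ^ D * c, ?_, min δ ε, ?_, lt_min hδ0 hε0, n, hn, ?_⟩
  · exact F.R.add_mem (F.R.mul_mem hb (F.R.add_mem (F.R.mul_mem hw.1
      (F.R.pow_mem (y_mem F) D')) (F.R.mul_mem (z_mem F) hc)))
      (F.R.mul_mem (F.R.mul_mem hu.1 (F.R.pow_mem (y_mem F) D)) hc)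
  · rcases min_choice δ ε with h | h <;> rw [h] <;> assumption
  · rw [← hmin, F.χ_add κ h1 κ' h2, pow_add]
    ring

theorem YRep.one (F : RF2 k v) : F.YRep 1 0 0 := by
  obtain ⟨δ, hδ, h0⟩ := exists_pos F
  exact ⟨F.Γ.zero_mem, 1, Un.one, 0, F.R.zero_mem, δ, hδ, h0, 0, F.R.zero_mem, by
    rw [χ_zero]; ring⟩

theorem YRep.pow (h : Ctx2 k v r) {f : Ω} {κ : ℝ} {D : ℕ} (hf : F.YRep f κ D) (n : ℕ) :
    F.YRep (f ^ n) (n * κ) (n * D) := by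
  induction n with
  | zero => simpa using YRep.one F
  | succ n ih =>
    have h1 := YRep.mul h ih hf
    have h2 : ((n + 1 : ℕ) : ℝ) * κ = n * κ + κ := by push_cast; ring
    rw [pow_succ, h2, Nat.succ_mul]
    exact h1

theorem Mono.yrep {f : Ω} (hf : F.Mono f) : F.YRep f (v f) 0 := by
  obtain ⟨u, hu, h1⟩ := Mono.exists_un hf
  obtain ⟨δ, hδ, h0⟩ := exists_pos F
  refine ⟨hf.2.1, u, hu, 0, F.R.zero_mem, δ, hδ, h0, 0, F.R.zero_mem, ?_⟩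
  rw [pow_zero, mul_one, mul_zero, mul_zero, add_zero, add_zero, ← h1]

theorem YRep.add_hi {f g : Ω} {κ : ℝ} {D : ℕ} (hf : F.YRep f κ D) (hg : Hi F κ g) :
    F.YRep (f + g) κ D := by
  obtain ⟨h1, u, hu, b, hb, δ, hδ, hδ0, a, ha, rfl⟩ := hf
  obtain ⟨γ, hγ, hlt, c, hc, rfl⟩ := hg
  have h3 : γ - κ ∈ F.Γ := F.Γ.sub_mem hγ h1
  obtain ⟨n, hn, hmin⟩ := ideal_add F hδ h3 ha hc
  refine ⟨h1, u, hu, b, hb, min δ (γ - κ), ?_, lt_min hδ0 (by linarith), n, hn, ?_⟩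
  · rcases min_choice δ (γ - κ) with h | h <;> rw [h] <;> assumption
  · have h4 : F.χ γ = F.χ κ * F.χ (γ - κ) := by
      rw [← F.χ_add κ h1 _ h3]; congr 1; ring
    rw [← hmin, h4]
    ring

/-- Adding a multiple of `z` of the same content. -/
theorem YRep.add_z {f g : Ω} {κ : ℝ} {D : ℕ} (hf : F.YRep f κ D) (hg : Lo F κ g) :
    F.YRep (f + F.z * g) κ D := by
  obtain ⟨h1, u, hu, b, hb, δ, hδ, hδ0, a, ha, rfl⟩ := hf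
  obtain ⟨-, c, hc, rfl⟩ := hg
  exact ⟨h1, u, hu, b + c, F.R.add_mem hb hc, δ, hδ, hδ0, a, ha, by ring⟩

theorem YRep.lo {f : Ω} {κ : ℝ} {D : ℕ} (hf : F.YRep f κ D) : Lo F κ f := by
  obtain ⟨h1, u, hu, b, hb, δ, hδ, hδ0, a, ha, rfl⟩ := hf
  exact ⟨h1, _, F.R.add_mem (F.R.add_mem (F.R.mul_mem hu.1 (F.R.pow_mem (y_mem F) D))
    (F.R.mul_mem (z_mem F) hb)) (F.R.mul_mem (χ_mem F hδ hδ0.le) ha), rfl⟩

end YRep

/-! ### the frame below -/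

section Over

variable {Ω₀ : IntermediateField k Ω}

/-- The two-parameter frame `F` lies over the one-parameter frame `S`. -/
structure Over (F : RF2 k v) (S : BF k (resv v Ω₀)) : Prop where
  R_le : ∀ f ∈ S.R, (f : Ω) ∈ F.R
  Γ_eq : F.Γ = S.Γ
  χ_eq : ∀ γ ∈ S.Γ, F.χ γ = (S.χ γ : Ω)
  y_eq : F.y = (S.y : Ω)

theorem over_of_isRF2 {F : RF2 k v} {S : BF k (resv v Ω₀)} {z : Ω} (h : IsRF2 F S z) :
    Over F S := by
  refine ⟨?_, h.Γ_eq, h.χ_eq, h.y_eq⟩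
  have key : ∀ f ∈ Algebra.adjoin k (S.χ '' {γ | γ ∈ S.Γ ∧ 0 ≤ γ} ∪ {S.y}),
      (f : Ω) ∈ F.P := by
    intro f hf
    induction hf using Algebra.adjoin_induction with
    | mem x hx =>
      rcases hx with ⟨γ, ⟨h1, h2⟩, rfl⟩ | rfl
      · rw [← h.χ_eq γ h1]
        exact Algebra.subset_adjoin (Or.inl ⟨γ, ⟨by rw [h.Γ_eq]; exact h1, h2⟩, rfl⟩)
      · rw [← h.y_eq]
        exact Algebra.subset_adjoin (Or.inr (Or.inl rfl))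
    | algebraMap c => exact F.P.algebraMap_mem c
    | add x y _ _ hx hy => exact F.P.add_mem hx hy
    | mul x y _ _ hx hy => exact F.P.mul_mem hx hy
  intro f hf
  rw [h.rat] at hf
  obtain ⟨a, ha, b, hb, hb0, hvb, rfl⟩ := hf
  refine ⟨a, key a ha, b, key b hb, fun h0 => hb0 (Subtype.ext h0), hvb, rfl⟩

variable {F : RF2 k v} {S : BF k (resv v Ω₀)}

theorem Over.un (hO : Over F S) {u : Ω₀} (hu : S.Un u) : F.Un (u : Ω) :=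
  ⟨hO.R_le u hu.1, fun h0 => hu.2.1 (Subtype.ext h0), hu.2.2⟩

theorem Over.mono (hO : Over F S) {f : Ω₀} (hf : S.Mono f) : F.Mono (f : Ω) := by
  obtain ⟨γ, hγ, u, hu, rfl⟩ := BF.mono_iff.1 hf
  exact mono_iff.2 ⟨γ, by rw [hO.Γ_eq]; exact hγ, (u : Ω), hO.un hu, by
    rw [hO.χ_eq γ hγ]; rfl⟩

theorem Over.lo (hO : Over F S) {γ : ℝ} (hγ : γ ∈ S.Γ) {a : Ω₀} (ha : a ∈ S.R) :
    Lo F γ ((S.χ γ * a : Ω₀) : Ω) :=
  ⟨by rw [hO.Γ_eq]; exact hγ, a, hO.R_le a ha, by rw [hO.χ_eq γ hγ]; rfl⟩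

theorem Over.yrep (hO : Over F S) {f : Ω₀} {κ : ℝ} {D : ℕ} (hf : S.Rep f κ D) :
    F.YRep (f : Ω) κ D := by
  obtain ⟨h1, u, hu, δ, hδ, hδ0, a, ha, rfl⟩ := hf
  refine ⟨by rw [hO.Γ_eq]; exact h1, (u : Ω), hO.un hu, 0, F.R.zero_mem, δ,
    by rw [hO.Γ_eq]; exact hδ, hδ0, (a : Ω), hO.R_le a ha, ?_⟩
  rw [hO.χ_eq κ h1, hO.χ_eq δ hδ, hO.y_eq, mul_zero, add_zero]
  push_cast
  rfl

end Over

end Pool.Agent.D2h7
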