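import Pool.Agent.Lib.LU3.Rows
import Pool.Agent.Lib.D2_h2.Final3c

/-!
# DefectTwo: the interface between R15a (choice of `ψ₀, ψ₁, S₁, H`) and R15b (the last step)
-/

set_option autoImplicit false

open Polynomial

namespace Pool.Agent.D2h7

open Pool.Agent.LU1 Pool.Agent.LU3
open Pool.Agent.H15JM (RVal)

universe u

variable {k Ω : Type u} [Field k] [Field Ω] [Algebra k Ω] {v : RVal Ω}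
  {Ω₀ : IntermediateField k Ω}

/-- `H(T) = G(ψ₁ + χ(α₁) T) / (G^[q](ψ₀) χ(q α₁))`. -/
noncomputable def Hp {E : Type u} [Field E] [Algebra k E] {w : RVal E} (S : BF k w)
    (G : Polynomial E) (q : ℕ) (ψ₀ ψ₁ : E) (α₁ : ℝ) : Polynomial E :=
  C (((hasseDeriv q G).eval ψ₀ * S.χ ((q : ℝ) * α₁))⁻¹) * G.comp (C ψ₁ + C (S.χ α₁) * X)

/-- What R15a delivers. -/
structure Out15a (z : Ω) (B : BF k (resv v Ω₀)) (L₀ : IntermediateField k Ω₀) (A : Ω₀[X])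
    (m p : ℕ) where
  S₁ : BF k (resv v Ω₀)
  reach : TReach B S₁
  t : ℕ
  t_pos : 0 < t
  s₀ : ℕ
  n : ℕ
  G : Ω₀[X]
  f : ℕ → Ω₀[X]
  s_lt : s₀ < n
  f_ne : f s₀ ≠ 0
  sum : A = ∑ s ∈ Finset.range n, f s * G ^ s
  m_eq : m = s₀ * p ^ t
  ψ₀ : Ω₀
  ψ₁ : Ω₀
  ψ₁_mem : ψ₁ ∈ S₁.R
  α₀ : ℝ
  α₁ : ℝ
  α₀_pos : 0 < α₀
  lt01 : α₀ < α₁
  α₀_mem : α₀ ∈ S₁.Γ
  α₁_mem : α₁ ∈ S₁.Γ
  σ : ℝ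
  kapG : ∀ i, 1 ≤ i → hasseDeriv i G ≠ 0 → D2h2.Kap S₁ (hasseDeriv i G) ψ₀ α₀
  kapf : ∀ s < n, f s ≠ 0 → D2h2.Kap S₁ (f s) ψ₀ α₀
  G_ne : hasseDeriv (p ^ t) G ≠ 0
  low : ∀ i, 1 ≤ i → i < p ^ t → hasseDeriv i G ≠ 0 →
    resv v Ω₀ ((hasseDeriv (p ^ t) G).eval ψ₀) + (((p ^ t : ℕ) : ℝ) - i) * σ ≤
      resv v Ω₀ ((hasseDeriv i G).eval ψ₀)
  high : ∀ i, p ^ t < i → hasseDeriv i G ≠ 0 →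
    resv v Ω₀ ((hasseDeriv (p ^ t) G).eval ψ₀) - ((i : ℝ) - (p ^ t : ℕ)) * α₀ ≤
      resv v Ω₀ ((hasseDeriv i G).eval ψ₀)
  diff : D2h2.Dv S₁ α₀ (ψ₁ - ψ₀)
  phi_eq : resv v Ω₀ ((f s₀).eval ψ₀) +
    s₀ * resv v Ω₀ ((hasseDeriv (p ^ t) G).eval ψ₀) = 0
  line : ∀ a : ℝ, α₁ ≤ a → a < σ → ∀ s < n, s ≠ s₀ → f s ≠ 0 →
    (m : ℝ) * a < resv v Ω₀ ((f s).eval ψ₀) +
      s * (resv v Ω₀ ((hasseDeriv (p ^ t) G).eval ψ₀) + ((p ^ t : ℕ) : ℝ) * a)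
  hpol : HPol k (resv v Ω₀) L₀ S₁ (Hp S₁ G (p ^ t) ψ₀ ψ₁ α₁) (p ^ t) (σ - α₁)
  val : ∀ S : BF k (resv v Ω₀), TReach S₁ S → ∀ θ ∈ S.R,
    v (z - ((ψ₁ + S₁.χ α₁ * θ : Ω₀) : Ω)) =
      α₁ + resv v Ω₀ ((Hp S₁ G (p ^ t) ψ₀ ψ₁ α₁).eval θ) / ((p ^ t : ℕ) : ℝ)

end Pool.Agent.D2h7
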