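import Pool.Agent.Lib.D2_h7.Out15a
import Pool.Agent.Lib.LU3.TReach

/-!
# DefectTwo, R15b: the step in case (*), `v(L₀)` not finitely generated
-/

set_option autoImplicit false

open Polynomial

namespace Pool.Agent.D2h7

open Pool.Agent.LU1 Pool.Agent.LU3
open Pool.Agent.H15JM (RVal)

universe u

/-! ### transport of the Kaplansky data to a later frame -/

section Transport

variable {k E : Type u} [Field k] [Field E] [Algebra k E] {w : RVal E} {r : ℕ}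

theorem kap_ext {S S' : BF k w} (h : Ext S S') {P : Polynomial E} {ψ0 : E} {α0 : ℝ}
    (hK : D2h2.Kap S P ψ0 α0) : D2h2.Kap S' P ψ0 α0 :=
  ⟨fun j => (hK.mono j).imp id fun h1 => h.mono h1, hK.ne, hK.lt⟩

theorem dv_ext {S S' : BF k w} (h : Ext S S') {α : ℝ} (hα : α ∈ S.Γ) {f : E}
    (hf : D2h2.Dv S α f) : D2h2.Dv S' α f := by
  obtain ⟨b, hb, rfl⟩ := hf
  refine ⟨S.χ α / S'.χ α * b, S'.R.mul_mem (h.χ_un α hα).1 (h.le hb), ?_⟩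
  rw [← mul_assoc, mul_div_cancel₀ _ (S'.χ_ne α (h.Γ_le α hα))]

theorem rep_mul_un {S : BF k w} {f u : E} {κ : ℝ} {D : ℕ} (hf : S.Rep f κ D) (hu : S.Un u) :
    S.Rep (f * u) κ D := by
  have h1 := hf.mul (BF.Mono.un hu).rep
  rwa [hu.2.2, add_zero, add_zero] at h1

end Transport

variable {k Ω : Type u} [Field k] [Field Ω] [Algebra k Ω] {v : RVal Ω}
  {Ω₀ : IntermediateField k Ω} {r : ℕ}

theorem hp_eval {E : Type u} [Field E] [Algebra k E] {w : RVal E} (S : BF k w)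
    (G : Polynomial E) (q : ℕ) (ψ₀ ψ₁ : E) (α₁ : ℝ) (θ : E) :
    (Hp S G q ψ₀ ψ₁ α₁).eval θ =
      G.eval (ψ₁ + S.χ α₁ * θ) / ((hasseDeriv q G).eval ψ₀ * S.χ ((q : ℝ) * α₁)) := by
  rw [Hp, eval_mul, eval_C, eval_comp, eval_add, eval_mul, eval_C, eval_C, eval_X,
    div_eq_inv_mul]

/-- The last lemma (common to the two cases of (*)): from the coefficients of
`A(ψ + χ(a) Z) / χ(m a)` to `F.Drop`. -/
def RowDrop (k Ω : Type u) [Field k] [Field Ω] [Algebra k Ω] (v : RVal Ω) (r : ℕ) : Prop :=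
  ∀ (Ω₀ : IntermediateField k Ω) (z : Ω), Core k v r Ω₀ z →
    ∀ (B : BF k (resv v Ω₀)) (F : RF2 k v), IsRF2 F B z →
    ∀ S : BF k (resv v Ω₀), TReach B S → ∀ ψ ∈ S.R, ∀ a ∈ S.Γ, 0 < a →
      a < v (z - (ψ : Ω)) → ∀ (A : Ω₀[X]) (m l : ℕ), l < m →
      (∀ j : ℕ, (hasseDeriv j A).eval ψ * S.χ (((j : ℝ) - m) * a) ∈ S.R) →
      S.Rep (A.eval ψ * S.χ (-((m : ℝ) * a))) 0 l → F.Drop (aeval z A) m

/-- The last step from the data of R15a and the conclusion of `RowPOL`. -/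
theorem drop_of_out (hdrop : RowDrop k Ω v r) {z : Ω} (hC : Core k v r Ω₀ z)
    {B : BF k (resv v Ω₀)} {L₀ : IntermediateField k Ω₀} {F : RF2 k v} (hF : IsRF2 F B z)
    {A : Ω₀[X]} {m p : ℕ} (hm : 0 < m) (O : Out15a z B L₀ A m p)
    {S : BF k (resv v Ω₀)} (hS : TReach O.S₁ S) {θ : Ω₀} (hθ : θ ∈ S.R) {γ : ℝ}
    (hγ : γ ∈ S.Γ) {D : ℕ} (hD0 : 0 < D) (hD : D < p ^ O.t)
    (hH : S.Rep ((Hp O.S₁ O.G (p ^ O.t) O.ψ₀ O.ψ₁ O.α₁).eval θ) ((p ^ O.t : ℕ) * γ) D) :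
    F.Drop (aeval z A) m := by
  classical
  obtain ⟨S₁, reach, t, t_pos, s₀, n, G, f, s_lt, f_ne, sum, m_eq, ψ₀, ψ₁, ψ₁_mem, α₀, α₁,
    α₀_pos, lt01, α₀_mem, α₁_mem, σ, kapG, kapf, G_ne, low, high, diff, phi_eq, line, hpol,
    val⟩ := O
  simp only at hS hD hH
  have hα₁ : 0 < α₁ := α₀_pos.trans lt01
  have hext := hS.ext
  have hq1 : 1 ≤ p ^ t := by omega
  have hq0 : (0 : ℝ) < ((p ^ t : ℕ) : ℝ) := by exact_mod_cast hq1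
  have hα₁S : α₁ ∈ S.Γ := hext.Γ_le _ α₁_mem
  have hα₀S : α₀ ∈ S.Γ := hext.Γ_le _ α₀_mem
  have hqα₁ : ((p ^ t : ℕ) : ℝ) * α₁ ∈ S₁.Γ := by
    rw [← nsmul_eq_mul]; exact S₁.Γ.nsmul_mem α₁_mem _
  have hqα₁S : ((p ^ t : ℕ) : ℝ) * α₁ ∈ S.Γ := hext.Γ_le _ hqα₁
  -- the element `θ' = u θ`
  have hu1 : S.Un (S₁.χ α₁ / S.χ α₁) := hext.χ_un _ α₁_mem
  have hu2 : S.Un (S₁.χ (((p ^ t : ℕ) : ℝ) * α₁) / S.χ (((p ^ t : ℕ) : ℝ) * α₁)) :=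
    hext.χ_un _ hqα₁
  set θ' : Ω₀ := S₁.χ α₁ / S.χ α₁ * θ with hθ'
  have hθ'R : θ' ∈ S.R := S.R.mul_mem hu1.1 hθ
  have hψeq : ψ₁ + S.χ α₁ * θ' = ψ₁ + S₁.χ α₁ * θ := by
    rw [hθ', ← mul_assoc, mul_div_cancel₀ _ (S.χ_ne _ hα₁S)]
  -- the content of `H(θ)`
  have hHm : (Hp S₁ G (p ^ t) ψ₀ ψ₁ α₁).eval θ ∈ S.R := by
    rw [eval_eq_sum_range]
    exact S.R.sum_mem fun i _ => S.R.mul_mem (hext.le (hpol.mem i)) (S.R.pow_mem hθ i)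
  have hγ0 : 0 ≤ γ := by
    have h1 := hH.ge_of_mem hC.c1 S.Γ.zero_mem hHm (by rw [S.χ_zero, one_mul])
    by_contra h2
    push Not at h2
    have h3 : ((p ^ t : ℕ) : ℝ) * γ < 0 := mul_neg_of_pos_of_neg hq0 h2
    linarith
  have hHv : ((p ^ t : ℕ) : ℝ) * γ < resv v Ω₀ ((Hp S₁ G (p ^ t) ψ₀ ψ₁ α₁).eval θ) :=
    hH.val_pos hC.c1 hD0
  obtain ⟨hH0, hHσ, -⟩ := hpol.val S hS θ hθ
  have hzv := val S hS θ hθ
  have hγv : γ < resv v Ω₀ ((Hp S₁ G (p ^ t) ψ₀ ψ₁ α₁).eval θ) / ((p ^ t : ℕ) : ℝ) := by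
    rw [lt_div_iff₀ hq0, mul_comm]; exact hHv
  have hvσ : resv v Ω₀ ((Hp S₁ G (p ^ t) ψ₀ ψ₁ α₁).eval θ) / ((p ^ t : ℕ) : ℝ) < σ - α₁ := by
    rw [div_lt_iff₀ hq0, mul_comm]; exact hHσ
  have haσ : α₁ + γ < σ := by linarith
  -- the representation of `G(ψ) / (G^[q](ψ₀) χ(q α₁))`
  have hH' : S.Rep (G.eval (ψ₁ + S.χ α₁ * θ') /
      ((hasseDeriv (p ^ t) G).eval ψ₀ * S.χ (((p ^ t : ℕ) : ℝ) * α₁)))
        (((p ^ t : ℕ) : ℝ) * γ) D := by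
    have h1 := rep_mul_un hH hu2
    rw [hp_eval, ← hψeq] at h1
    have h2 := (kapG (p ^ t) hq1 G_ne).ne
    have h3 := S.χ_ne _ hqα₁S
    have h4 := S₁.χ_ne _ hqα₁
    have e1 : G.eval (ψ₁ + S.χ α₁ * θ') /
        ((hasseDeriv (p ^ t) G).eval ψ₀ * S.χ (((p ^ t : ℕ) : ℝ) * α₁)) =
        G.eval (ψ₁ + S.χ α₁ * θ') /
          ((hasseDeriv (p ^ t) G).eval ψ₀ * S₁.χ (((p ^ t : ℕ) : ℝ) * α₁)) *
          (S₁.χ (((p ^ t : ℕ) : ℝ) * α₁) / S.χ (((p ^ t : ℕ) : ℝ) * α₁)) := by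
      field_simp
    rw [e1]
    exact h1
  -- the coefficients of `A`
  set f' : ℕ → Ω₀[X] := fun s => if s < n then f s else 0 with hf'
  have hf'lt : ∀ s < n, f' s = f s := fun s hs => by rw [hf']; exact if_pos hs
  have hf'ne : ∀ s, f' s ≠ 0 → s < n ∧ f s ≠ 0 := by
    intro s hs
    by_cases h1 : s < n
    · exact ⟨h1, by rwa [hf'lt s h1] at hs⟩
    · exact absurd (by rw [hf']; exact if_neg h1) hs
  have sum' : A = ∑ s ∈ Finset.range n, f' s * G ^ s := by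
    rw [sum]
    exact Finset.sum_congr rfl fun s hs => by rw [hf'lt s (Finset.mem_range.1 hs)]
  have key := D2h2.row15 (S := S) (A := A) (G := G) (N := n) (f := f') sum' (q := p ^ t)
    (s0 := s₀) hq1 s_lt (ψ0 := ψ₀) (ψ1 := ψ₁) (θ := θ') hθ'R (α0 := α₀) (α1 := α₁) (κ := γ)
    (ρ := α₀) (σ := σ) hα₀S hα₁S lt01 le_rfl hγ hγ0 haσ (dv_ext hext α₀_mem diff)
    (fun i hi h1 => kap_ext hext (kapG i hi h1)) G_ne low high
    (fun s hs => by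
      obtain ⟨h1, h2⟩ := hf'ne s hs
      rw [hf'lt s h1]
      exact kap_ext hext (kapf s h1 h2))
    (by rw [hf'lt s₀ s_lt]; exact f_ne) (by rw [hf'lt s₀ s_lt]; exact phi_eq)
    (fun s hs hne => by
      obtain ⟨h1, h2⟩ := hf'ne s hne
      rw [hf'lt s h1, ← m_eq]
      exact line (α₁ + γ) (by linarith) haσ s h1 hs h2)
    (D := D) hH'
  rw [← m_eq] at key
  obtain ⟨key1, key2⟩ := key
  have hs₀ : 0 < s₀ := by
    rcases Nat.eq_zero_or_pos s₀ with h0 | h0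
    · rw [h0, zero_mul] at m_eq; omega
    · exact h0
  refine hdrop Ω₀ z hC B F hF S (reach.trans hS) (ψ₁ + S.χ α₁ * θ') ?_ (α₁ + γ)
    (S.Γ.add_mem hα₁S hγ) (by linarith) ?_ A m (s₀ * D) ?_ key1 ?_
  · exact S.R.add_mem (hext.le ψ₁_mem)
      (S.R.mul_mem (S.χ_mem _ hα₁S hα₁.le) hθ'R)
  · rw [hψeq, hzv]; linarith
  · rw [m_eq]; exact Nat.mul_lt_mul_of_pos_left hD hs₀
  · rw [neg_mul] at key2
    exact key2

/-- **The step in case (*), `v(L₀)` not finitely generated.** -/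
theorem stepNFG {p : ℕ} (hp : p.Prime) (hchar : CharP k p) (hk : IsAlgClosed k)
    (h15a : ∀ (Ω₀ : IntermediateField k Ω) (z : Ω), IsAlgClosed Ω₀ → Core k v r Ω₀ z →
      ∀ (B : BF k (resv v Ω₀)) (L₀ : IntermediateField k Ω₀), FracIs B.R L₀ → BRat B →
      ∀ (A : Ω₀[X]) (m : ℕ), 0 < m → HA B A m → CondNFG v Ω₀ z L₀ A →
        Nonempty (Out15a z B L₀ A m p))
    (hPOL : ∀ Ω₀ : IntermediateField k Ω, RowPOL k Ω₀ (resv v Ω₀) r)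
    (hdrop : RowDrop k Ω v r) : StepIf k Ω v r (CondNFG v) := by
  intro Ω₀ z hac hC B L₀ hfrac F hF A m hm hA hcond
  obtain ⟨O⟩ := h15a Ω₀ z hac hC B L₀ hfrac hF.rat A m hm hA hcond
  obtain ⟨S, hS, θ, hθ, γ, hγ, D, hD0, hD, hH⟩ :=
    hPOL Ω₀ p hp hchar hk hC.c1 L₀ O.S₁ _ O.t _ O.t_pos hcond.2 O.hpol
  exact drop_of_out hdrop hC hF hm O hS hθ hγ hD0 hD hH

end Pool.Agent.D2h7
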